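import Pool.Agent.J4H5.LM.Stm
import Pool.Agent.J4H6.JP.Up

set_option autoImplicit false

/-!
# Project LM of helper5: (UPG), the growth of `Xi` near height `t` from the bounds on `Re w = 0` and `Re w = x1` (helper6)
-/

namespace Pool.Agent.J4H6.LM

open Complex Filter Topology Set
open scoped ComplexConjugate
open Pool.Agent.J4H1.JP Pool.Agent.J4H1.LB Pool.Agent.J4H5.LM Pool.Agent.J4H6.JP
open Pool.Agent.J4H6.DN (G0)

/-- the maximum principle on a box to the right of the imaginary axis -/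
theorem box2 {f : ℂ → ℂ} (hf : Differentiable ℂ f) {b L A M y0 : ℝ} (hL : 0 < L) (hb : 0 < b)
    (hA : 0 ≤ A) (h0 : ∀ y : ℝ, |y - y0| ≤ L → ‖f (y * I)‖ ≤ M)
    (h1 : ∀ y : ℝ, |y - y0| ≤ L → ‖f (b + y * I)‖ * Real.exp (A * b ^ 2) ≤ M)
    (h2 : ∀ x y : ℝ, 0 ≤ x → x ≤ b → |y - y0| = L →
      ‖f (x + y * I)‖ * Real.exp (A * (b ^ 2 - L ^ 2)) ≤ M)
    {x : ℝ} (hx0 : 0 ≤ x) (hxb : x ≤ b) : ‖f (x + y0 * I)‖ ≤ M := by
  rcases eq_or_lt_of_le hx0 with hxa | hxa
  · rw [← hxa, ofReal_zero, zero_add]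
    exact h0 y0 (by rw [sub_self, abs_zero]; exact hL.le)
  rcases eq_or_lt_of_le hxb with hxc | hxc
  · rw [hxc]
    refine le_trans ?_ (h1 y0 (by rw [sub_self, abs_zero]; exact hL.le))
    refine le_mul_of_one_le_right (norm_nonneg _) (Real.one_le_exp (by positivity))
  set U : Set ℂ := {z : ℂ | (0 < z.re ∧ z.re < b) ∧ |z.im - y0| < L} with hU
  have hUo : IsOpen U := by
    refine IsOpen.inter (IsOpen.inter ?_ ?_) ?_
    · exact isOpen_lt continuous_const continuous_re
    · exact isOpen_lt continuous_re continuous_const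
    · exact isOpen_lt (continuous_abs.comp (continuous_im.sub continuous_const)) continuous_const
  have hUc : closure U ⊆ {z : ℂ | (0 ≤ z.re ∧ z.re ≤ b) ∧ |z.im - y0| ≤ L} := by
    refine closure_minimal (fun z hz => ⟨⟨hz.1.1.le, hz.1.2.le⟩, hz.2.le⟩)
      (IsClosed.inter (IsClosed.inter ?_ ?_) ?_)
    · exact isClosed_le continuous_const continuous_re
    · exact isClosed_le continuous_re continuous_const
    · exact isClosed_le (continuous_abs.comp (continuous_im.sub continuous_const))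
        continuous_const
  have hUb : Bornology.IsBounded U := by
    refine (Metric.isBounded_iff_subset_closedBall (y0 * I)).2 ⟨b + L, fun z hz => ?_⟩
    rw [Metric.mem_closedBall, dist_eq_norm]
    refine (Complex.norm_le_abs_re_add_abs_im _).trans ?_
    have e1 : (z - y0 * I).re = z.re := by simp
    have e2 : (z - y0 * I).im = z.im - y0 := by simp
    rw [e1, e2, abs_of_pos hz.1.1]
    exact add_le_add hz.1.2.le hz.2.le
  set g : ℂ → ℂ := fun z => f z * cexp (A * (z - y0 * I) ^ 2) with hg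
  have hgd : Differentiable ℂ g := hf.mul (by fun_prop)
  have hgn : ∀ z : ℂ, ‖g z‖ = ‖f z‖ * Real.exp (A * (z.re ^ 2 - (z.im - y0) ^ 2)) := by
    intro z
    rw [hg]
    simp only
    rw [norm_mul, Complex.norm_exp, re_ofReal_mul]
    congr 3
    have e : ((z - y0 * I) ^ 2).re = (z - y0 * I).re ^ 2 - (z - y0 * I).im ^ 2 := by
      rw [sq, mul_re]
      ring
    rw [e]
    simp
  have key := Complex.norm_le_of_forall_mem_frontier_norm_le (f := g) (C := M) hUb
    hgd.diffContOnCl (fun z hz => ?_) (z := (x : ℂ) + y0 * I) (subset_closure ?_)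
  · rw [hgn] at key
    refine le_trans ?_ key
    have e1 : ((x : ℂ) + y0 * I).re = x := by simp
    have e2 : ((x : ℂ) + y0 * I).im = y0 := by simp
    rw [e1, e2, sub_self]
    refine le_mul_of_one_le_right (norm_nonneg _) (Real.one_le_exp ?_)
    have : 0 ≤ x ^ 2 - 0 ^ 2 := by nlinarith [sq_nonneg x]
    positivity
  · rw [frontier, hUo.interior_eq] at hz
    obtain ⟨⟨c0, c1⟩, c2⟩ := hUc hz.1
    have c3 : z ∉ U := hz.2
    rw [hgn]
    have ez : (z.re : ℂ) + z.im * I = z := re_add_im z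
    rcases eq_or_lt_of_le c0 with c0' | c0'
    · have h3 := h0 z.im c2
      have ez2 : (z.im : ℂ) * I = z := by
        rw [← c0', ofReal_zero, zero_add] at ez
        exact ez
      rw [ez2] at h3
      refine le_trans (mul_le_of_le_one_right (norm_nonneg _) ?_) h3
      rw [Real.exp_le_one_iff, ← c0']
      have : 0 ≤ A * (z.im - y0) ^ 2 := by positivity
      nlinarith
    · rcases lt_or_ge z.re b with c4 | c4
      · have c5 : |z.im - y0| = L := by
          refine le_antisymm c2 ?_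
          by_contra c6
          exact c3 ⟨⟨c0', c4⟩, lt_of_not_ge c6⟩
        have h3 := h2 z.re z.im c0 c1 c5
        rw [ez] at h3
        refine le_trans (mul_le_mul_of_nonneg_left (Real.exp_le_exp.2 ?_) (norm_nonneg _)) h3
        refine mul_le_mul_of_nonneg_left ?_ hA
        have c7 : (z.im - y0) ^ 2 = L ^ 2 := by rw [← sq_abs, c5]
        have c8 : z.re ^ 2 ≤ b ^ 2 := pow_le_pow_left₀ c0 c1 2
        rw [c7]
        linarith
      · have c5 : z.re = b := le_antisymm c1 c4
        have h3 := h1 z.im c2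
        rw [← c5, ez] at h3
        refine le_trans (mul_le_mul_of_nonneg_left (Real.exp_le_exp.2 ?_) (norm_nonneg _)) h3
        refine mul_le_mul_of_nonneg_left ?_ hA
        nlinarith [sq_nonneg (z.im - y0)]
  · refine ⟨⟨?_, ?_⟩, ?_⟩
    · simpa using hxa
    · simpa using hxc
    · simpa using hL

/-- the bound on the imaginary axis -/
theorem axis_bound {κ δ : ℝ} (hL : LC κ) (hκ : 0 ≤ κ) (hδ : 0 < δ) (R' : ℝ) :
    ∀ᶠ t : ℝ in atTop, ∀ y : ℝ, |y - t| ≤ R' →
      ‖Xi (y * I)‖ ≤ Gt t * Real.exp (Real.log t / 2 * (2 * κ + δ)) := by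
  obtain ⟨C, hC⟩ := hL (δ / 4) (by linarith)
  filter_upwards [eventually_ge_atTop 1000, eventually_ge_atTop (2 * (R' + 1)),
    absorb (9 * R' + (Real.log (|C| + 1) + (κ + δ / 4) * Real.log 2)) (δ / 2)
      (by linarith)] with t h1 h2 h4 y hy
  have hyy := hy
  rw [abs_le] at hy
  set z : ℂ := (y : ℂ) * I with hz
  have hzre : z.re = 0 := by simp [hz]
  have hzim : z.im = y := by simp [hz]
  have hzt : ‖z - t * I‖ ≤ R' := by
    refine (Complex.norm_le_abs_re_add_abs_im _).trans ?_
    have e1 : (z - t * I).re = 0 := by simp [hz]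
    have e2 : (z - t * I).im = y - t := by simp [hz]
    rw [e1, e2, abs_zero, zero_add]
    exact hyy
  obtain ⟨k, -⟩ := gam_up h1 (by linarith) hzt (by rw [hzre])
  rw [hzre, mul_zero, zero_add] at k
  rw [Xi_G0 (by rw [hzre]) (by rw [hzim]; linarith), norm_mul]
  have hy1 : 1 ≤ y := by linarith
  have hypos : 0 < y := by linarith
  have hζ := hC y hy1
  have hC1 : 0 < |C| + 1 := by positivity
  have h5 : C * y ^ (κ + δ / 4) ≤ Real.exp (Real.log (|C| + 1) + (κ + δ / 4) * Real.log 2 +
      Real.log t / 2 * (2 * κ + δ / 2)) := by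
    have h8 : C * y ^ (κ + δ / 4) ≤ (|C| + 1) * y ^ (κ + δ / 4) := by
      refine mul_le_mul_of_nonneg_right ?_ (by positivity)
      have := le_abs_self C
      linarith
    refine h8.trans ?_
    have e2 : (|C| + 1) * y ^ (κ + δ / 4) =
        Real.exp (Real.log (|C| + 1) + Real.log y * (κ + δ / 4)) := by
      rw [Real.exp_add, Real.exp_log hC1, Real.rpow_def_of_pos hypos]
    rw [e2]
    apply Real.exp_le_exp.2
    have h6 : Real.log y ≤ Real.log (2 * t) := Real.log_le_log hypos (by linarith)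
    rw [Real.log_mul (by norm_num) (by linarith)] at h6
    have h7 : Real.log y * (κ + δ / 4) ≤ (Real.log 2 + Real.log t) * (κ + δ / 4) :=
      mul_le_mul_of_nonneg_right h6 (by positivity)
    linarith
  calc ‖G0 (1 / 2 + z)‖ * ‖riemannZeta (1 / 2 + z)‖
      ≤ Gt t * Real.exp (9 * R') * Real.exp (Real.log (|C| + 1) + (κ + δ / 4) * Real.log 2 +
      Real.log t / 2 * (2 * κ + δ / 2)) :=
        mul_le_mul k (hζ.trans h5) (norm_nonneg _) (mul_nonneg (Gt_nonneg t) (Real.exp_pos _).le)
    _ = Gt t * Real.exp (9 * R' +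
        (Real.log (|C| + 1) + (κ + δ / 4) * Real.log 2 + Real.log t / 2 * (2 * κ + δ / 2))) := by
        rw [Real.exp_add (9 * R')]
        ring
    _ ≤ Gt t * Real.exp (Real.log t / 2 * (2 * κ + δ)) := by
        refine mul_le_mul_of_nonneg_left (Real.exp_le_exp.2 ?_) (Gt_nonneg t)
        have e2 : Real.log t / 2 * (2 * κ + δ) =
            Real.log t / 2 * (2 * κ + δ / 2) + Real.log t / 2 * (δ / 2) := by ring
        rw [e2]
        linarith

theorem norm_tw (ℓ m : ℝ) (z : ℂ) : ‖Xi z * cexp (-((ℓ * m : ℝ) : ℂ) * z)‖ =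
    ‖Xi z‖ * Real.exp (-(ℓ * m * z.re)) := by
  rw [norm_mul, Complex.norm_exp, neg_mul, neg_re, re_ofReal_mul]

/-- (UPG) -/
theorem t_UPG : J_UPG := by
  intro κ x1 hκ hκx hx1 hL hup R δ hR hδ
  set p : ℝ := 2 * κ with hp
  have hp0 : 0 ≤ p := by linarith
  have hx0 : 0 < x1 := by linarith
  set m : ℝ := 1 - p / x1 with hm
  have hm0 : 0 ≤ m := by
    rw [hm, sub_nonneg, div_le_one hx0]
    exact hκx.le
  have hmx : m * x1 = x1 - p := by
    rw [hm]
    field_simp
  set L : ℝ := 4 / δ + 1 with hLd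
  have hL1 : 1 ≤ L := by
    rw [hLd]
    have : 0 ≤ 4 / δ := by positivity
    linarith
  have hLδ : 4 ≤ δ * L ^ 2 := by
    have h1 : δ * L = 4 + δ := by
      rw [hLd]
      field_simp
    have h2 : δ * L ^ 2 = (4 + δ) * L := by rw [← h1]; ring
    rw [h2]
    nlinarith
  have hδx : δ / 2 * x1 ^ 2 ≤ δ / 2 * 1 := by
    refine mul_le_mul_of_nonneg_left ?_ (by linarith)
    exact pow_le_one₀ hx0.le (by linarith)
  obtain ⟨T0, hT0⟩ := hup (R + L + 1) (δ / 2) (by linarith) (by linarith)
  have hax := axis_bound (κ := κ) (δ := δ / 2) hL hκ (by linarith) (R + L)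
  have hall := ((hax.and (eventually_ge_atTop T0)).and ((eventually_ge_atTop (R + 1)).and
    (eventually_ge_atTop 1)))
  obtain ⟨T, hT⟩ := eventually_atTop.1 hall
  refine ⟨T, fun t ht z hz => ?_⟩
  obtain ⟨⟨k1, k2⟩, k3, k4⟩ := hT t ht
  have hlog : 0 ≤ Real.log t := Real.log_nonneg k4
  set ℓ := Real.log t / 2 with hℓ
  have hℓ0 : 0 ≤ ℓ := by positivity
  have hG := Gt_nonneg t
  obtain ⟨b1, b2, b3⟩ := near_bounds hz
  rcases le_total |z.re| x1 with h | h
  · -- inside
    have hgg : p + |z.re| * m ≤ gg p x1 z.re := le_max_right _ _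
    have habs := abs_Xi z
    have hbox := box2 (f := fun w => Xi w * cexp (-((ℓ * m : ℝ) : ℂ) * w)) (b := x1) (L := L)
      (A := ℓ * (δ / 2)) (M := Gt t * Real.exp (ℓ * (p + δ))) (y0 := |z.im|)
      (diff_Xi.mul (by fun_prop)) (by linarith) hx0 (by positivity) (fun y hy => ?_)
      (fun y hy => ?_) (fun x y hx hx' hy => ?_) (x := |z.re|) (abs_nonneg _) h
    · rw [norm_tw, ← habs] at hbox
      have e1 : (((|z.re| : ℝ) : ℂ) + ((|z.im| : ℝ) : ℂ) * I).re = |z.re| := by simp
      rw [e1] at hbox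
      have h5 : ‖Xi z‖ = ‖Xi z‖ * Real.exp (-(ℓ * m * |z.re|)) * Real.exp (ℓ * m * |z.re|) := by
        rw [mul_assoc, ← Real.exp_add]
        simp
      rw [h5]
      calc ‖Xi z‖ * Real.exp (-(ℓ * m * |z.re|)) * Real.exp (ℓ * m * |z.re|)
          ≤ Gt t * Real.exp (ℓ * (p + δ)) * Real.exp (ℓ * m * |z.re|) :=
            mul_le_mul_of_nonneg_right hbox (Real.exp_pos _).le
        _ = Gt t * Real.exp (ℓ * (p + δ) + ℓ * m * |z.re|) := by
            rw [Real.exp_add]
            ring
        _ ≤ Gt t * Real.exp (ℓ * (gg p x1 z.re + δ)) := by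
            refine mul_le_mul_of_nonneg_left (Real.exp_le_exp.2 ?_) hG
            have e2 : ℓ * (p + δ) + ℓ * m * |z.re| = ℓ * (p + |z.re| * m + δ) := by ring
            rw [e2]
            refine mul_le_mul_of_nonneg_left ?_ hℓ0
            linarith
    · -- the imaginary axis
      rw [norm_tw]
      have e1 : ((y : ℂ) * I).re = 0 := by simp
      rw [e1, mul_zero, neg_zero, Real.exp_zero, mul_one]
      have hy2 : |y - t| ≤ R + L := by
        rw [abs_of_nonneg (show 0 ≤ z.im by linarith)] at hy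
        rw [abs_le] at hy ⊢
        constructor <;> linarith
      refine (k1 y hy2).trans ?_
      refine mul_le_mul_of_nonneg_left (Real.exp_le_exp.2 ?_) hG
      refine mul_le_mul_of_nonneg_left ?_ hℓ0
      linarith
    · -- the right side
      have hy2 : |y - t| ≤ R + L := by
        rw [abs_of_nonneg (show 0 ≤ z.im by linarith)] at hy
        rw [abs_le] at hy ⊢
        constructor <;> linarith
      have e1 : ((x1 : ℂ) + y * I).re = x1 := by simp
      have hn : ‖((x1 : ℂ) + y * I) - t * I‖ ≤ R + L + 1 := by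
        refine (Complex.norm_le_abs_re_add_abs_im _).trans ?_
        have e3 : (((x1 : ℂ) + y * I) - t * I).re = x1 := by simp
        have e4 : (((x1 : ℂ) + y * I) - t * I).im = y - t := by simp
        rw [e3, e4, abs_of_pos hx0]
        linarith
      have h6 := hT0 t k2 _ hn
      rw [e1, abs_of_pos hx0, max_self] at h6
      rw [norm_tw, e1]
      calc ‖Xi ((x1 : ℂ) + y * I)‖ * Real.exp (-(ℓ * m * x1)) * Real.exp (ℓ * (δ / 2) * x1 ^ 2)
          ≤ Gt t * Real.exp (ℓ * (x1 + δ / 2)) * Real.exp (-(ℓ * m * x1)) *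
            Real.exp (ℓ * (δ / 2) * x1 ^ 2) := by gcongr
        _ = Gt t * Real.exp (ℓ * (x1 + δ / 2) + -(ℓ * m * x1) + ℓ * (δ / 2) * x1 ^ 2) := by
            rw [Real.exp_add, Real.exp_add]
            ring
        _ ≤ Gt t * Real.exp (ℓ * (p + δ)) := by
            refine mul_le_mul_of_nonneg_left (Real.exp_le_exp.2 ?_) hG
            have e2 : ℓ * (x1 + δ / 2) + -(ℓ * m * x1) + ℓ * (δ / 2) * x1 ^ 2 =
                ℓ * (x1 + δ / 2 - m * x1 + (δ / 2) * x1 ^ 2) := by ring
            rw [e2, hmx]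
            refine mul_le_mul_of_nonneg_left ?_ hℓ0
            linarith
    · -- the horizontal sides
      have hy2 : |y - t| ≤ R + L := by
        have hy' := hy.le
        rw [abs_of_nonneg (show 0 ≤ z.im by linarith)] at hy'
        rw [abs_le] at hy' ⊢
        constructor <;> linarith
      have e1 : ((x : ℂ) + y * I).re = x := by simp
      have hn : ‖((x : ℂ) + y * I) - t * I‖ ≤ R + L + 1 := by
        refine (Complex.norm_le_abs_re_add_abs_im _).trans ?_
        have e3 : (((x : ℂ) + y * I) - t * I).re = x := by simp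
        have e4 : (((x : ℂ) + y * I) - t * I).im = y - t := by simp
        rw [e3, e4, abs_of_nonneg hx]
        linarith
      have h6 := hT0 t k2 _ hn
      rw [e1, abs_of_nonneg hx, max_eq_right hx'] at h6
      rw [norm_tw, e1]
      have h8 : Real.exp (-(ℓ * m * x)) ≤ 1 := by
        rw [Real.exp_le_one_iff, neg_nonpos]
        positivity
      calc ‖Xi ((x : ℂ) + y * I)‖ * Real.exp (-(ℓ * m * x)) *
            Real.exp (ℓ * (δ / 2) * (x1 ^ 2 - L ^ 2))
          ≤ Gt t * Real.exp (ℓ * (x1 + δ / 2)) * 1 * Real.exp (ℓ * (δ / 2) * (x1 ^ 2 - L ^ 2)) := by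
            gcongr
        _ = Gt t * Real.exp (ℓ * (x1 + δ / 2) + ℓ * (δ / 2) * (x1 ^ 2 - L ^ 2)) := by
            rw [Real.exp_add]
            ring
        _ ≤ Gt t * Real.exp (ℓ * (p + δ)) := by
            refine mul_le_mul_of_nonneg_left (Real.exp_le_exp.2 ?_) hG
            have e2 : ℓ * (x1 + δ / 2) + ℓ * (δ / 2) * (x1 ^ 2 - L ^ 2) =
                ℓ * (x1 + δ / 2 + (δ / 2) * x1 ^ 2 - δ * L ^ 2 / 2) := by ring
            rw [e2]
            refine mul_le_mul_of_nonneg_left ?_ hℓ0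
            linarith
  · -- outside
    have hn : ‖z - t * I‖ ≤ R + L + 1 := by linarith
    have h6 := hT0 t k2 z hn
    rw [max_eq_left h] at h6
    refine h6.trans ?_
    refine mul_le_mul_of_nonneg_left (Real.exp_le_exp.2 ?_) hG
    refine mul_le_mul_of_nonneg_left ?_ hℓ0
    have h7 : |z.re| ≤ gg p x1 z.re := le_max_left _ _
    linarith

end Pool.Agent.J4H6.LM
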